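import Pool.Agent.Y118.HG.Defs2
import Pool.Agent.Y113.W.All

/-!
# Project HG: a bounded set of integers meets all the bad tuples of a window (abstract version)
-/

set_option autoImplicit false

open PowerSeries Finset.HasAntidiagonal

namespace Pool.Agent.Y341.HG

open Pool.Agent.Y113 Pool.Agent.Y118.HG

/-- the dichotomy -/
lemma sep_or {k G0 : ℕ} (Bad : (Fin k → ℕ) → Prop) (hB : ∀ t, Bad t → SepN G0 t) (r : ℕ) :
    (∃ g : Fin r → Fin k → ℕ, (∀ l, Bad (g l)) ∧ ∀ p q : Fin r × Fin k, p ≠ q →
      (G0 : ℤ) ≤ |(g p.1 p.2 : ℤ) - g q.1 q.2|) ∨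
    ∃ S : Finset ℕ, S.card ≤ r * k * (2 * G0) ∧ ∀ t, Bad t → ∃ i, t i ∈ S := by
  classical
  induction r with
  | zero => exact Or.inl ⟨fun l => l.elim0, fun l => l.elim0, fun p => p.1.elim0⟩
  | succ r ih =>
    rcases ih with ⟨g, hg, hsep⟩ | ⟨S, hS, hS'⟩
    · set S : Finset ℕ := Finset.univ.biUnion
        (fun p : Fin r × Fin k => Finset.Ico (g p.1 p.2 + 1 - G0) (g p.1 p.2 + G0)) with hS
      by_cases h : ∃ t, Bad t ∧ ∀ i, t i ∉ S
      · obtain ⟨t, ht, htS⟩ := h
        have htS' : ∀ i l j, (G0 : ℤ) ≤ |(t i : ℤ) - g l j| := by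
          intro i l j
          have h1 := htS i
          rw [hS, Finset.mem_biUnion] at h1
          push Not at h1
          have h2 := h1 (l, j) (Finset.mem_univ _)
          rw [Finset.mem_Ico] at h2
          simp only at h2
          rcases le_or_gt (t i : ℤ) (g l j) with h3 | h3
          · rw [abs_of_nonpos (by omega)]
            omega
          · rw [abs_of_pos (by omega)]
            omega
        left
        refine ⟨Fin.cons t g, fun l => ?_, ?_⟩
        · refine Fin.cases ?_ (fun l => ?_) l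
          · simpa using ht
          · simpa using hg l
        · rintro ⟨l, i⟩ ⟨l', i'⟩
          refine Fin.cases ?_ (fun l => ?_) l
          · refine Fin.cases ?_ (fun l' => ?_) l'
            · intro h1
              exact hB t ht i i' fun h2 => h1 (by rw [h2])
            · intro _
              exact htS' i l' i'
          · refine Fin.cases ?_ (fun l' => ?_) l'
            · intro _
              have := htS' i' l i
              rw [abs_sub_comm] at this
              exact this
            · intro h1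
              refine hsep (l, i) (l', i') fun h2 => h1 ?_
              simp only [Prod.mk.injEq] at h2
              rw [h2.1, h2.2]
      · right
        push Not at h
        refine ⟨S, ?_, h⟩
        calc S.card ≤ (Finset.univ : Finset (Fin r × Fin k)).card * (2 * G0) := by
              refine Finset.card_biUnion_le_card_mul _ _ _ fun p _ => ?_
              rw [Nat.card_Ico]
              omega
          _ = r * k * (2 * G0) := by simp
          _ ≤ (r + 1) * k * (2 * G0) := Nat.mul_le_mul_right _ (Nat.mul_le_mul_right _ (by omega))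
    · exact Or.inr ⟨S, hS.trans (Nat.mul_le_mul_right _ (Nat.mul_le_mul_right _ (by omega))), hS'⟩

/-- a bounded set of integers meets all the bad tuples of a window -/
theorem t_wk : Pool.Agent.Y118.HG.T_wk := by
  classical
  intro κ _ k0 G0 TT w hG0 hw1 hsys hLI hTT k D
  choose qF EF hF using hsys
  obtain ⟨ET, hTT⟩ := hTT
  choose EG hG using fun r => t_G (Fintype.card (Fin r → κ)) (qF r)
  set R := D * k with hR
  set E := 1 + ET + (EF 1 + 1) + ∑ r ∈ Finset.range (R + 1), (EF r + 1) * EG r with hE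
  refine ⟨R * (2 * G0), E, ?_⟩
  intro V hVf hV H t ht
  -- sizes
  have hH2 : (1 : ℝ) ≤ (H : ℝ) + 2 := one_le_base H
  have htR : ((H : ℝ) + 2) ^ E ≤ t := by exact_mod_cast ht
  have hge : ∀ a ≤ E, ((H : ℝ) + 2) ^ a ≤ t := fun a ha => (base_mono hH2 ha).trans htR
  have ht2 : H + 2 ≤ t := by
    have h1 : H + 2 ≤ (H + 2) ^ E := Nat.le_self_pow (by omega) _
    exact h1.trans ht
  have ht0 : (0 : ℝ) < t := by exact_mod_cast (by omega : 0 < t)
  set m := Module.finrank ℚ V with hm
  -- bad tuples
  set Bad : (Fin k → ℕ) → Prop := fun g => SepN G0 g ∧ (∀ i, g i ≤ H) ∧ ∃ c : (Fin k → κ) → V, c ≠ 0 ∧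
    ∑ e, (c e : ℂ) * ∏ i, (ev t (w (g i) (e i)) : ℂ) = 0 with hBad
  have hbad : ∀ g : Fin k → ℕ, SepN G0 g → (∀ i, g i ≤ H) → ∀ c : (Fin k → κ) → ℂ, (∀ e, c e ∈ V) →
      ∑ e, c e * ∏ i, (ev t (w (g i) (e i)) : ℂ) = 0 → ¬ Bad g → c = 0 := by
    intro g h1 h2 c hc h3 h4
    by_contra h5
    refine h4 ⟨h1, h2, fun e => ⟨c e, hc e⟩, fun h6 => h5 ?_, h3⟩
    funext e
    exact congrArg Subtype.val (congrFun h6 e)
  -- the degenerate case
  by_cases hm0 : m = 0
  · refine ⟨∅, by simp, fun g hg hgS c hc hrel => ?_⟩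
    have hbot : V = ⊥ := Submodule.finrank_eq_zero.1 hm0
    funext e
    have := hc e
    rw [hbot, Submodule.mem_bot] at this
    exact this
  rcases sep_or Bad (fun t ht => ht.1) m with ⟨g, hg, hsep⟩ | ⟨S, hS, hS'⟩
  swap
  · refine ⟨S, hS.trans (Nat.mul_le_mul_right _ (Nat.mul_le_mul_right _ hV)), fun g hg hgS c hc hrel => ?_⟩
    refine hbad g hg (fun i => (hgS i).1) c hc hrel fun hb => ?_
    obtain ⟨i, hi⟩ := hS' g hb
    exact (hgS i).2 hi
  exfalso
  have hgH : ∀ l i, g l i ≤ H := fun l i => (hg l).2.1 i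
  choose c hc0 hcv using fun l => (hg l).2.2
  -- convergence
  have hcvg : ∀ a ≤ H, ∀ j, Cv t (w a j) := by
    intro a ha j
    refine Cv.of_bound ht0 (A := ((H : ℝ) + 2) ^ EF 1) (B := ((H : ℝ) + 2) ^ EF 1) (by positivity) ?_ fun n => ?_
    · refine lt_of_lt_of_le ?_ (hge (EF 1 + 1) (by rw [hE]; omega))
      exact pow_lt_pow_right₀ (by linarith [show (0 : ℝ) ≤ H by positivity]) (by omega)
    · rw [← pow_succ']
      have h1 := (hF 1 H (fun _ => a) fun _ => ha).size (fun _ => j) n
      simpa using h1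
  -- linear independence of the values
  set G : Fin (m * k) → ℕ := fun p => g (finProdFinEquiv.symm p).1 (finProdFinEquiv.symm p).2 with hGdef
  have hGsep : SepN G0 G := by
    intro p q h
    exact hsep _ _ fun h1 => h (finProdFinEquiv.symm.injective h1)
  have hGH : ∀ p, G p ≤ H := fun p => hgH _ _
  have hmk : m * k ≤ R := Nat.mul_le_mul_right _ hV
  have hone : (∏ p, w (G p) ((fun _ => k0 : Fin (m * k) → κ) p)) = 1 :=
    Finset.prod_eq_one fun p _ => hw1 _
  have hEG : (2 * ((H : ℝ) + 2) ^ EF (m * k)) ^ EG (m * k) ≤ t := by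
    refine (pow_base H _ _).trans (hge _ ?_)
    have h1 := Finset.single_le_sum (f := fun r => (EF r + 1) * EG r) (fun _ _ => Nat.zero_le _)
      (Finset.mem_range.2 (show m * k < R + 1 by omega))
    rw [hE]
    omega
  have hPT : Polynomial.aeval (1 / (t : ℝ)) (∏ p, TT (G p)) ≠ 0 := by
    rw [map_prod, Finset.prod_ne_zero_iff]
    intro p _
    refine hTT (G p) t ?_
    have hgR : ((G p : ℕ) : ℝ) + 2 ≤ (H : ℝ) + 2 := by
      have : ((G p : ℕ) : ℝ) ≤ H := by exact_mod_cast hGH p
      linarith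
    exact (pow_le_pow_left₀ (by positivity) hgR _).trans (hge ET (by rw [hE]; omega))
  have hind := hG (m * k) (Fin (m * k) → κ) (((H : ℝ) + 2) ^ EF (m * k)) (∏ p, TT (G p))
    (fun e : Fin (m * k) → κ => ∏ p, w (G p) (e p)) (fun _ => k0) t le_rfl (hF (m * k) H G hGH) hone
    (hLI (m * k) G hGsep) hEG hPT
  -- the matrix of the relations
  set bV := Module.finBasis ℚ V with hbV
  have hsum : ∀ (x : V), ∑ j, ((bV.repr x j : ℚ) : ℂ) * (bV j : ℂ) = (x : ℂ) := by
    intro x
    have h1 := bV.sum_repr x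
    have h2 := congrArg (Submodule.subtype V) h1
    rw [map_sum] at h2
    simp only [map_smul, Submodule.subtype_apply] at h2
    rw [← h2]
    exact Finset.sum_congr rfl fun j _ => by rw [Algebra.smul_def]; rfl
  set x : Fin m → (Fin k → κ) → ℝ := fun l b => ∏ i, ev t (w (g l i) (b i)) with hx
  have hxLI : LinearIndependent ℚ (fun b : Fin m → (Fin k → κ) => ∏ l, x l (b l)) := by
    set Φ : (Fin m → (Fin k → κ)) → Fin (m * k) → κ :=
      fun b p => b (finProdFinEquiv.symm p).1 (finProdFinEquiv.symm p).2 with hΦ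
    have h1 := hind.comp Φ (by
      intro b b' h
      funext l i
      have := congrFun h (finProdFinEquiv (l, i))
      simp only [hΦ, Equiv.symm_apply_apply] at this
      exact this)
    have h2 : (fun b : Fin m → (Fin k → κ) => ∏ l, x l (b l)) =
        (fun i : Fin (m * k) → κ => ev t (∏ p, w (G p) (i p))) ∘ Φ := by
      funext b
      show _ = ev t (∏ p, w (G p) (Φ b p))
      rw [Cv.ev_prod ht0 _ _ fun p _ => hcvg _ (hGH p) _]
      rw [← finProdFinEquiv.prod_comp, Fintype.prod_prod_type]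
      refine Finset.prod_congr rfl fun l _ => ?_
      rw [hx]
      refine Finset.prod_congr rfl fun i _ => ?_
      simp only [hΦ, hGdef, Equiv.symm_apply_apply]
    rw [h2]
    exact h1
  obtain ⟨l, hl⟩ := Pool.Agent.Y141.GF.t_elim m (Fin k → κ) x (fun j => (bV j : ℂ))
    (fun l j b => bV.repr (c l b) j) hxLI
    (by
      have := bV.linearIndependent
      exact this.map' (Submodule.subtype V) (Submodule.ker_subtype V)) (by
      intro l
      rw [Finset.sum_comm]
      rw [← hcv l]
      refine Finset.sum_congr rfl fun b _ => ?_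
      have h2 : (∏ i, (ev t (w (g l i) (b i)) : ℂ)) = (x l b : ℂ) := by
        rw [hx]
        push_cast
        rfl
      rw [h2]
      calc ∑ j, ((bV.repr (c l b) j : ℚ) : ℂ) * (x l b : ℂ) * (bV j : ℂ)
          = (∑ j, ((bV.repr (c l b) j : ℚ) : ℂ) * (bV j : ℂ)) * (x l b : ℂ) := by
            rw [Finset.sum_mul]
            exact Finset.sum_congr rfl fun j _ => by ring
        _ = _ := by rw [hsum]) (Nat.pos_of_ne_zero hm0)
  apply hc0 l
  funext b
  apply Subtype.ext
  rw [← hsum (c l b)]
  refine (Finset.sum_eq_zero fun j _ => ?_).trans rfl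
  have h2 := congrFun (congrFun hl j) b
  simp only [Pi.zero_apply] at h2
  rw [h2]
  simp

end Pool.Agent.Y341.HG
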